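import Pool.Agent.Work.MP_2ad852_ag.GS.Defs
import Pool.Agent.Work.MP_2ad852_ag.GF.Stmts

/-!
# Block GS: statements of the items
-/

namespace Pool.Agent.Work.MP_2ad852_ag.GS

open MvPolynomial Finset Pool.Agent.Work.MP_2ad852_ag.GF

/-! ## Order and leading exponents -/

def S_K2 : Prop :=
  (∀ (n : ℕ) (z y : Fin n) (p q : Fin n →₀ ℕ), key2 z y (p + q) = key2 z y p + key2 z y q) ∧
  (∀ (n : ℕ) (z y : Fin n) (p q : Fin n →₀ ℕ), y ≠ z → ∑ i, p i = ∑ i, q i →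
    key2 z y p = key2 z y q → p = q) ∧
  (∀ (n : ℕ) (z y : Fin n) (p q : Fin n →₀ ℕ), y ≠ z → ∑ i, p i = ∑ i, q i →
    key2 z y p ≤ key2 z y q → q z ≤ p z ∧ (q z = p z → q y ≤ p y))

def S_LeadAdd2 : Prop :=
  ∀ (n : ℕ) (R : Type) [CommRing R] [IsDomain R] (z y : Fin n) (k e : ℕ)
    (F : (Fin n →₀ ℕ) → R) (q r : Fin n →₀ ℕ), y ≠ z → IsLead2 z y k e F q →
    IsLead2 z y k e F (q + r)

def S_LeadEx : Prop :=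
  ∀ (n : ℕ) (R : Type) [CommRing R] [IsDomain R] [CharZero R] (z y x : Fin n) (k e : ℕ)
    (F : (Fin n →₀ ℕ) → R) (D : Derivation ℤ R R), y ≠ z → x ≠ y → x ≠ z →
    (∀ p ∈ Mk z k e, D (F p) = (p y : R) * F (p - Finsupp.single y 1 + Finsupp.single x 1)) →
    ∀ q, IsLead2 z y k e F q → 1 ≤ q y →
      IsLead2 z y k e F (q - Finsupp.single y 1 + Finsupp.single x 1)

def S_Van2 : Prop :=
  ∀ (n : ℕ) (R : Type) [CommRing R] [IsDomain R] (z y : Fin n) (k e : ℕ)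
    (F G : (Fin n →₀ ℕ) → R), y ≠ z →
    (∀ (m : ℕ) (u v : MvPolynomial (Fin n) R), IsAnn z k e F (X z ^ m * u) →
      IsAnn z k e F (X z ^ m * v) → fn z k e G (X z ^ m * (u * v)) = 0) →
    (∀ p ∈ Bad2 z k e (IsLead2 z y k e F), G p = 0) → ∀ p ∈ Mk z k e, G p = 0

def S_Ind2 : Prop :=
  ∀ (n : ℕ) (R : Type) [CommRing R] [IsDomain R] (z y : Fin n) (k e t : ℕ)
    (F : (Fin n →₀ ℕ) → R) (c : (Fin n →₀ ℕ) → R), y ≠ z →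
    IsAnn z k e F (∑ q ∈ Std z k t (IsLead2 z y k e F), monomial q (c q)) →
    ∀ q ∈ Std z k t (IsLead2 z y k e F), c q = 0

def S_Tan3 : Prop :=
  ∀ (n : ℕ) (R : Type) [CommRing R] (z : Fin n) (k e : ℕ) (F : (Fin n →₀ ℕ) → R)
    (D : Derivation ℤ R R) (f h w : MvPolynomial (Fin n) R),
    (∀ v, fn z k e F (f * v) = 0) → (∀ p, D (coeff p f) = coeff p h) →
    fn z k e (fun p => D (F p)) (f * w) = - fn z k e F (h * w)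

def S_Tan4 : Prop :=
  ∀ (n : ℕ) (R : Type) [CommRing R] (z : Fin n) (k e : ℕ) (F : (Fin n →₀ ℕ) → R)
    (D : Derivation ℤ R R) (m : ℕ) (u v : MvPolynomial (Fin n) R),
    IsAnn z k e F (X z ^ m * u) → IsAnn z k e F (X z ^ m * v) →
    fn z k e (fun p => D (F p)) (X z ^ m * (u * v)) = 0

def S_Core2 : Prop :=
  ∀ (R ι : Type) [CommRing R] [IsDomain R] [Fintype ι] (n : ℕ) (z y : Fin n) (k e : ℕ)
    (d : ι → ℕ) (F : (Fin n →₀ ℕ) → R) (fs : ι → MvPolynomial (Fin n) R)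
    (D : ι → (Fin n →₀ ℕ) → Derivation ℤ R R) (yb : (Fin n →₀ ℕ) → MvPolynomial (Fin n) R),
    y ≠ z → (∃ p ∈ Mk z k e, F p ≠ 0) → (∀ l v, fn z k e F (fs l * v) = 0) →
    (∀ l b, b ∈ Mt n (d l) → ∀ p, D l b (coeff p (fs l)) = coeff p (yb b)) →
    (∀ l l' b, b ∈ Mt n (d l) → l' ≠ l → ∀ p, D l b (coeff p (fs l')) = 0) →
    (∀ l, d l ≤ e → ∀ w : MvPolynomial (Fin n) R, w.IsHomogeneous (e - d l) →
      (∀ b ∈ Mt n (d l), fn z k e F (yb b * w) = 0) → IsAnn z k e F w) →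
    (∑ l ∈ (Finset.univ : Finset ι).filter (fun l => d l ≤ e),
      (Std z k (e - d l) (IsLead2 z y k e F)).card) + 1 ≤
      (Bad2 z k e (IsLead2 z y k e F)).card

/-! ## The twist -/

def S_TwInv : Prop :=
  ∀ (ι : Type) (n : ℕ) (z y : Fin n) (w : MvPolynomial (Fin n) (R2 ι n)), y ≠ z →
    tw z y (twi z y w) = w ∧ twi z y (tw z y w) = w

def S_TwHom : Prop :=
  ∀ (ι : Type) (n : ℕ) (z y : Fin n) (ε : ℂ) (t : ℕ) (w : MvPolynomial (Fin n) (R2 ι n)),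
    w.IsHomogeneous t → (tws z y ε w).IsHomogeneous t

def S_TwFn : Prop :=
  ∀ (ι : Type) (n : ℕ) (z y : Fin n) (k e : ℕ) (F : (Fin n →₀ ℕ) → Rg ι n)
    (w : MvPolynomial (Fin n) (R2 ι n)), y ≠ z →
    fn z k e (twF z y k e F) w = fn z k e (fun p => inj (F p)) (tw z y w)

def S_TwKill : Prop :=
  ∀ (ι : Type) (n : ℕ) (z y : Fin n) (k e : ℕ) (d : ι → ℕ) (F : (Fin n →₀ ℕ) → Rg ι n),
    y ≠ z → LKw z k e d F →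
    ∀ (l : ι) (v : MvPolynomial (Fin n) (R2 ι n)),
      fn z k e (twF z y k e F) (twf z y d l * v) = 0

def S_TwNe : Prop :=
  ∀ (ι : Type) (n : ℕ) (z y : Fin n) (k e : ℕ) (F : (Fin n →₀ ℕ) → Rg ι n), y ≠ z →
    (∃ p ∈ Mk z k e, F p ≠ 0) → ∃ p ∈ Mk z k e, twF z y k e F p ≠ 0

def S_TwD : Prop :=
  ∀ (ι : Type) (n : ℕ) (z y : Fin n) (d : ι → ℕ) (l l' : ι) (b p : Fin n →₀ ℕ),
    b ∈ Mt n (d l) →
    (pderiv (Sum.inl (l, b)) (coeff p (twf z y d l)) =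
      coeff p (twi (ι := ι) z y (monomial b 1))) ∧
    (l' ≠ l → pderiv (Sum.inl (l, b)) (coeff p (twf z y d l')) = 0)

def S_TwSpan : Prop :=
  ∀ (ι : Type) (n : ℕ) (z y : Fin n) (k e t : ℕ) (F : (Fin n →₀ ℕ) → R2 ι n)
    (w : MvPolynomial (Fin n) (R2 ι n)), y ≠ z → t ≤ e → w.IsHomogeneous (e - t) →
    (∀ b ∈ Mt n t, fn z k e F (twi z y (monomial b 1) * w) = 0) → IsAnn z k e F w

def S_TwPDE : Prop :=
  ∀ (ι : Type) (n : ℕ) (z y x : Fin n) (k e : ℕ) (F : (Fin n →₀ ℕ) → Rg ι n), y ≠ z → x ≠ y →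
    x ≠ z → ∀ p : Fin n →₀ ℕ, pderiv (Sum.inr x) (twF z y k e F p) =
      (p y : R2 ι n) * twF z y k e F (p - Finsupp.single y 1 + Finsupp.single x 1)

def S_Core3 : Prop :=
  ∀ (ι : Type) [Fintype ι] (n : ℕ) (z y : Fin n) (k e : ℕ) (d : ι → ℕ)
    (F : (Fin n →₀ ℕ) → Rg ι n), y ≠ z → LKw z k e d F →
    ∃ L : (Fin n →₀ ℕ) → Prop, Closed z y L ∧
      (∑ l ∈ (Finset.univ : Finset ι).filter (fun l => d l ≤ e), (Std z k (e - d l) L).card) + 1 ≤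
        (Bad2 z k e L).card

def S_ExtR2 : Prop :=
  ∀ (ι : Type) [Fintype ι] (n : ℕ) (z : Fin n) (k e s : ℕ) (d : ι → ℕ), RK z k e d →
    RK z k e (Sum.elim d (fun _ : Fin s => e))

/-! ## Monomials: from the bad set to rows and cells -/

def S_StdSum : Prop :=
  ∀ (n : ℕ) (z y : Fin n) (k s : ℕ) (L : (Fin n →₀ ℕ) → Prop), y ≠ z →
    (Std z k s L).card =
      ∑ j ∈ Finset.range (min k (s + 1)), ∑ i ∈ Finset.Ico j (s + 1), (cell z y s L j i).card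

def S_Dens : Prop :=
  ∀ (n : ℕ) (z y : Fin n) (s i j : ℕ) (L : (Fin n →₀ ℕ) → Prop), y ≠ z → Closed z y L →
    j ≤ i → i < s →
    (cell z y s L j i).card * (MT z y (s - (i + 1))).card ≤
      (cell z y s L j (i + 1)).card * (MT z y (s - i)).card

def S_BadLe : Prop :=
  ∀ (n : ℕ) (z y x1 : Fin n) (k s D m i j : ℕ) (L : (Fin n →₀ ℕ) → Prop), y ≠ z → x1 ≠ z →
    x1 ≠ y → Closed z y L → m < k → i ≤ s → Win s D k m j →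
    ((Bad2 z k (2 * s + D) L).filter (fun p => p z = m ∧ lev z y x1 D p = i)).card *
        (MT z y (s - max j i)).card ≤
      (row z y x1 (2 * s + D) D m i).card * (cell z y s L j (max j i)).card

def S_RowMass1 : Prop :=
  ∀ (n : ℕ) (z y x1 : Fin n) (s D m i : ℕ), y ≠ z → x1 ≠ z → x1 ≠ y → 1 ≤ i → i ≤ s →
    (row z y x1 (2 * s + D) D m i).card =
      GG (n - 3) ((D : ℤ) + 2 * i - m) * (MT z y (s - i)).card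

def S_RowMass0 : Prop :=
  ∀ (n : ℕ) (z y x1 : Fin n) (s D m : ℕ), y ≠ z → x1 ≠ z → x1 ≠ y →
    (GG (n - 3) ((D : ℤ) - m) * (MT z y s).card ≤ (row z y x1 (2 * s + D) D m 0).card) ∧
    (D < m → (row z y x1 (2 * s + D) D m 0).card = 0)

def S_RowSum : Prop :=
  ∀ (n : ℕ) (z y x1 : Fin n) (s D β : ℕ), y ≠ z → x1 ≠ z → x1 ≠ y →
    ∑ m ∈ Finset.range (β + 1), ∑ i ∈ Finset.range (s + 1),
      (row z y x1 (2 * s + D) D m i).card = (Mk z (β + 1) (2 * s + D)).card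

def S_CapSum : Prop :=
  ∀ (n : ℕ) (z y : Fin n) (s β : ℕ), y ≠ z →
    (Mk z (β + 1) s).card =
      ∑ i ∈ Finset.range (s + 1), (MT z y (s - i)).card * (min i β + 1)

def S_Ratio : Prop :=
  ∀ (n : ℕ) (z : Fin n) (s e j k : ℕ), 2 ≤ n → s ≤ e → j ≤ k →
    (Mk z j e).card * (Mk z k s).card ≤ (Mk z k e).card * (Mk z j s).card

def S_GG : Prop :=
  ∀ N : ℕ, (∀ x y : ℤ, x ≤ y → GG N x ≤ GG N y) ∧ (∀ x : ℤ, GG N x ≤ 2 ^ (N + 1)) ∧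
    (∀ x : ℤ, x < 0 → GG N x = 0)

/-! ## The cut inequality -/

def S_tt1 : Prop :=
  ∀ (s D k : ℕ) (ρ κ : ℝ) (W : ℕ → ℝ) (G : ℤ → ℝ) (α : ℕ → ℕ → ℝ), CutData s D k ρ κ W G α →
    ∀ i β, i < β → tt ρ α (i + 1) β ≤ tt ρ α i β

def S_tt2 : Prop :=
  ∀ (s D k : ℕ) (ρ κ : ℝ) (W : ℕ → ℝ) (G : ℤ → ℝ) (α : ℕ → ℕ → ℝ), CutData s D k ρ κ W G α →
    ∀ i β, β < i → tt ρ α i β ≤ 0

def S_tt3 : Prop :=
  ∀ (s D k : ℕ) (ρ κ : ℝ) (W : ℕ → ℝ) (G : ℤ → ℝ) (α : ℕ → ℕ → ℝ), CutData s D k ρ κ W G α →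
    ∀ i b β, b < β →
      (i ≤ b → tt ρ α i b ≤ tt ρ α i β) ∧
      (b < i → i < β →
        tt ρ α (i + 1) β - tt ρ α (i + 1) b ≤ tt ρ α i β - tt ρ α i b) ∧
      (β < i → tt ρ α i β ≤ tt ρ α i b)

def S_VV : Prop :=
  ∀ (s D k : ℕ) (ρ κ : ℝ) (W : ℕ → ℝ) (G : ℤ → ℝ) (α : ℕ → ℕ → ℝ), CutData s D k ρ κ W G α →
    ∀ i0 β, β < k → VV s ρ W α i0 β ≤ 0

def S_StepC : Prop :=
  ∀ (s D k : ℕ) (ρ κ : ℝ) (W : ℕ → ℝ) (G : ℤ → ℝ) (α : ℕ → ℕ → ℝ), CutData s D k ρ κ W G α →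
    ∀ i0 b i1 β, i0 ≤ b → b < i1 → b < β → β < k → i1 ≤ s →
      ∑ i ∈ Finset.Ico i0 i1, W i * tt ρ α i b + VV s ρ W α i1 β ≤
        max (VV s ρ W α i0 b) (VV s ρ W α i0 β)

def S_ww1 : Prop :=
  ∀ (s D k : ℕ) (ρ κ : ℝ) (W : ℕ → ℝ) (G : ℤ → ℝ) (α : ℕ → ℕ → ℝ), CutData s D k ρ κ W G α →
    ∀ (g : ℕ → ℕ) (i b : ℕ), i ≤ s → b ≤ i → (∀ m' < b, ¬ Hole s k g i m') →
      (∃ m', m' ≤ i ∧ Hole s k g i m') →
      ww s D k ρ α g i ≤ ∑ m ∈ Finset.range b, α m i - ρ * b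

def S_ww2 : Prop :=
  ∀ (s D k : ℕ) (ρ κ : ℝ) (W : ℕ → ℝ) (G : ℤ → ℝ) (α : ℕ → ℕ → ℝ), CutData s D k ρ κ W G α →
    ∀ (g : ℕ → ℕ) (i b : ℕ), i ≤ s → i < b → Hole s k g i b → (∀ m' < b, ¬ Hole s k g i m') →
      ww s D k ρ α g i ≤ tt ρ α i (b - 1)

def S_ww3 : Prop :=
  ∀ (s D k : ℕ) (ρ κ : ℝ) (W : ℕ → ℝ) (G : ℤ → ℝ) (α : ℕ → ℕ → ℝ), CutData s D k ρ κ W G α →
    ∀ (g : ℕ → ℕ) (i : ℕ), i ≤ s → (∀ m', ¬ Hole s k g i m') →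
      ww s D k ρ α g i ≤ tt ρ α i (k - 1)

def S_Cut : Prop :=
  ∀ (s D k : ℕ) (ρ κ : ℝ) (W : ℕ → ℝ) (G : ℤ → ℝ) (α : ℕ → ℕ → ℝ), CutData s D k ρ κ W G α →
    ∀ g : ℕ → ℕ, ∑ i ∈ Finset.range (s + 1), W i * ww s D k ρ α g i ≤ 0

def S_Dual : Prop :=
  ∀ (s D k : ℕ) (ρ κ : ℝ) (W : ℕ → ℝ) (G : ℤ → ℝ) (α : ℕ → ℕ → ℝ), CutData s D k ρ κ W G α →
    ∀ (E : ℕ → ℕ → ℕ) (B : ℕ → ℕ → ℝ), (∀ j i, j ≤ i → i < s → E j i ≤ E j (i + 1)) →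
      (∀ m i, α m i = 0 → B m i ≤ 0) →
      (∀ m i j, m < k → i ≤ s → Win s D k m j → B m i ≤ W i * α m i * E j (max j i)) →
      ∑ m ∈ Finset.range k, ∑ i ∈ Finset.range (s + 1), B m i ≤
        ρ * ∑ j ∈ Finset.range (min k (s + 1)), ∑ i ∈ Finset.Ico j (s + 1), W i * E j i

/-! ## The combinatorial inequalities -/

def S_CombS : Prop :=
  ∀ (n : ℕ) (z y : Fin n) (k s D : ℕ) (ρ : ℝ) (L : (Fin n →₀ ℕ) → Prop), 3 ≤ n → y ≠ z →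
    1 ≤ k → Closed z y L → (2 : ℝ) ^ (n - 1) ≤ ρ →
    ((Mk z k (2 * s + D)).card : ℝ) ≤ ρ * (Mk z k s).card →
    ((Bad2 z k (2 * s + D) L).card : ℝ) ≤ ρ * (Std z k s L).card

def S_CombW : Prop :=
  ∀ (n : ℕ) (z y : Fin n) (s D : ℕ) (ρ : ℝ) (L : (Fin n →₀ ℕ) → Prop), 3 ≤ n → y ≠ z →
    Closed z y L → (2 : ℝ) ^ (n - 2) ≤ ρ →
    ((Mk z 1 (2 * s + D)).card : ℝ) ≤ ρ * (Mk z 1 s).card →
    ((Bad2 z 1 (2 * s + D) L).card : ℝ) ≤ ρ * (Std z 1 s L).card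

/-- numerical facts on `Mk` -/
def S_MkNum : Prop :=
  (∀ (n : ℕ) (z : Fin n) (d : ℕ), 2 ≤ n → 1 ≤ d →
    (Mk z (2 * d) (2 * d - 1)).card ≤ 2 ^ (n - 1) * (Mk z (2 * d) (d - 1)).card) ∧
  (∀ (n : ℕ) (z : Fin n) (d : ℕ), 2 ≤ n → 1 ≤ d →
    (Mk z 1 (2 * d - 1)).card ≤ 2 ^ (n - 2) * (Mk z 1 (d - 1)).card) ∧
  (∀ (n : ℕ) (z : Fin n) (k s t : ℕ), 2 ≤ n → s ≤ t → (Mk z k s).card ≤ (Mk z k t).card) ∧
  (∀ (n : ℕ) (z : Fin n) (k t : ℕ), 1 ≤ k → 2 ≤ n → 0 < (Mk z k t).card)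

end Pool.Agent.Work.MP_2ad852_ag.GS
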