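import Pool.Agent.Work.MP_2ad852_ag.GS.Stmts

/-!
# Block GS, item RowMass1
-/

namespace Pool.Agent.Work.MP_2ad852_ag.GS

open MvPolynomial Finset Pool.Agent.Work.MP_2ad852_ag.GF

namespace RM

variable {n : ℕ}

theorem mem_TT {z y x : Fin n} : x ∈ TT z y ↔ x ≠ y ∧ x ≠ z := by
  simp [TT]

theorem card_T {z y x1 : Fin n} (h1 : y ≠ z) (h2 : x1 ≠ z) (h3 : x1 ≠ y) :
    ((TT z y).erase x1).card = n - 3 := by
  rw [Finset.card_erase_of_mem (mem_TT.2 ⟨h3, h2⟩)]
  unfold TT
  rw [Finset.card_erase_of_mem (Finset.mem_erase.2 ⟨h1, Finset.mem_univ y⟩),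
    Finset.card_erase_of_mem (Finset.mem_univ z), Finset.card_univ, Fintype.card_fin]
  omega

theorem sum_split {z y x1 : Fin n} (h1 : y ≠ z) (h2 : x1 ≠ z) (h3 : x1 ≠ y) (p : Fin n → ℕ) :
    ∑ i, p i = p z + p y + (p x1 + ∑ x ∈ (TT z y).erase x1, p x) := by
  rw [Finset.add_sum_erase _ _ (mem_TT.2 ⟨h3, h2⟩), ← Finset.add_sum_erase _ _ (Finset.mem_univ z),
    add_assoc]
  congr 1
  unfold TT
  rw [Finset.add_sum_erase _ _ (Finset.mem_erase.2 ⟨h1, Finset.mem_univ y⟩)]

/-- half of `p` on the other variables -/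
noncomputable def hf (z y : Fin n) (p : Fin n →₀ ℕ) : Fin n →₀ ℕ :=
  Finsupp.mapRange (fun a => a / 2) rfl ((p.erase z).erase y)

theorem hf_apply {z y : Fin n} (p : Fin n →₀ ℕ) (x : Fin n) (hx : x ∈ TT z y) :
    hf z y p x = p x / 2 := by
  unfold hf
  rw [Finsupp.mapRange_apply, Finsupp.erase_ne (mem_TT.1 hx).1, Finsupp.erase_ne (mem_TT.1 hx).2]

theorem hf_apply' {z y : Fin n} (p : Fin n →₀ ℕ) (x : Fin n) (hx : x ∉ TT z y) :
    hf z y p x = 0 := by
  unfold hf
  rw [Finsupp.mapRange_apply]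
  rw [mem_TT] at hx
  by_cases hy : x = y
  · rw [hy, Finsupp.erase_same]; rfl
  · by_cases hz : x = z
    · rw [Finsupp.erase_ne hy, hz, Finsupp.erase_same]; rfl
    · exact absurd ⟨hy, hz⟩ hx

/-- the inverse map -/
noncomputable def bk (z y x1 : Fin n) (m μ r : ℕ) (q : Finset (Fin n) × (Fin n →₀ ℕ)) :
    Fin n →₀ ℕ :=
  Finsupp.equivFunOnFinite.symm (fun x => if x = z then m else if x = y then μ else
    2 * q.2 x + (if x = x1 then r else if x ∈ q.1 then 1 else 0))

theorem bk_apply (z y x1 : Fin n) (m μ r : ℕ) (q : Finset (Fin n) × (Fin n →₀ ℕ)) (x : Fin n) :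
    bk z y x1 m μ r q x = if x = z then m else if x = y then μ else
      2 * q.2 x + (if x = x1 then r else if x ∈ q.1 then 1 else 0) := rfl

theorem fib {z y x1 : Fin n} (h1 : y ≠ z) (h2 : x1 ≠ z) (h3 : x1 ≠ y) (a Λ r e m : ℕ)
    (hr : r ≤ 1) (he : Λ + 2 * a + r = e) :
    ((Mt n e).filter (fun p => p z = m ∧ Lw z y x1 p = Λ)).card =
      (((TT z y).erase x1).powerset.filter (fun ε => m + ε.card ≤ Λ)).card *
        (MT z y a).card := by
  classical
  rw [← Finset.card_product]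
  have hx1 : x1 ∈ TT z y := mem_TT.2 ⟨h3, h2⟩
  -- the sums
  have hodd : ∀ p : Fin n →₀ ℕ, (((TT z y).erase x1).filter (fun x => p x % 2 = 1)).card =
      ∑ x ∈ (TT z y).erase x1, p x % 2 := by
    intro p
    rw [Finset.card_filter]
    refine Finset.sum_congr rfl fun x _ => ?_
    rcases Nat.mod_two_eq_zero_or_one (p x) with h | h <;> simp [h]
  have hsum : ∀ p : Fin n →₀ ℕ, ∑ i, p i = Lw z y x1 p + p x1 % 2 +
      2 * ∑ x ∈ TT z y, p x / 2 := by
    intro p
    rw [sum_split h1 h2 h3 (fun x => p x), Lw, ← Finset.add_sum_erase _ _ hx1]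
    have h4 : ∑ x ∈ (TT z y).erase x1, p x =
        ∑ x ∈ (TT z y).erase x1, p x % 2 + 2 * ∑ x ∈ (TT z y).erase x1, p x / 2 := by
      rw [Finset.mul_sum, ← Finset.sum_add_distrib]
      exact Finset.sum_congr rfl fun x _ => (Nat.mod_add_div (p x) 2).symm
    rw [h4]
    have := Nat.mod_add_div (p x1) 2
    omega
  have hMT : ∀ c : Fin n →₀ ℕ, c ∈ MT z y a ↔ (∑ x ∈ TT z y, c x = a) ∧
      ∀ x, x ∉ TT z y → c x = 0 := by
    intro c
    unfold MT
    rw [Finset.mem_finsuppAntidiag]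
    refine and_congr Iff.rfl ⟨fun h x hx => ?_, fun h x hx => ?_⟩
    · by_contra h0
      exact hx (h (Finsupp.mem_support_iff.2 h0))
    · by_contra h0
      exact (Finsupp.mem_support_iff.1 hx) (h x h0)
  refine Finset.card_nbij' (fun p => (((TT z y).erase x1).filter (fun x => p x % 2 = 1), hf z y p))
    (fun q => bk z y x1 m (Λ - m - q.1.card) r q) ?_ ?_ ?_ ?_
  · intro p hp
    rw [Finset.mem_coe, Finset.mem_filter, mem_Mt] at hp
    obtain ⟨hp1, hp2, hp3⟩ := hp
    rw [Finset.mem_coe, Finset.mem_product, Finset.mem_filter, Finset.mem_powerset, hMT]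
    have h5 := hsum p
    have h6 : Lw z y x1 p = p z + p y + ∑ x ∈ (TT z y).erase x1, p x % 2 := rfl
    refine ⟨⟨Finset.filter_subset _ _, ?_⟩, ?_, fun x hx => hf_apply' p x hx⟩
    · change m + (((TT z y).erase x1).filter (fun x => p x % 2 = 1)).card ≤ Λ
      rw [hodd]
      omega
    · change ∑ x ∈ TT z y, hf z y p x = a
      rw [Finset.sum_congr rfl fun x hx => hf_apply p x hx]
      have := Nat.mod_lt (p x1) (show 0 < 2 by norm_num)
      omega
  · intro q hq
    rw [Finset.mem_coe, Finset.mem_product, Finset.mem_filter, Finset.mem_powerset, hMT] at hq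
    obtain ⟨⟨hq1, hq2⟩, hq3, hq4⟩ := hq
    rw [Finset.mem_coe, Finset.mem_filter, mem_Mt]
    set μ := Λ - m - q.1.card with hμ
    have e1 : bk z y x1 m μ r q z = m := by rw [bk_apply, if_pos rfl]
    have e2 : bk z y x1 m μ r q y = μ := by rw [bk_apply, if_neg h1, if_pos rfl]
    have e3 : bk z y x1 m μ r q x1 = 2 * q.2 x1 + r := by
      rw [bk_apply, if_neg h2, if_neg h3, if_pos rfl]
    have e4 : ∀ x ∈ (TT z y).erase x1, bk z y x1 m μ r q x =
        2 * q.2 x + (if x ∈ q.1 then 1 else 0) := by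
      intro x hx
      rw [Finset.mem_erase, mem_TT] at hx
      rw [bk_apply, if_neg hx.2.2, if_neg hx.2.1, if_neg hx.1]
    have e5 : ∑ x ∈ (TT z y).erase x1, bk z y x1 m μ r q x % 2 = q.1.card := by
      rw [Finset.sum_congr rfl (g := fun x => if x ∈ q.1 then 1 else 0)]
      · rw [← Finset.card_filter]
        congr 1
        ext x
        rw [Finset.mem_filter]
        exact ⟨fun h => h.2, fun h => ⟨hq1 h, h⟩⟩
      · intro x hx
        rw [e4 x hx]
        split_ifs <;> omega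
    have e6 : Lw z y x1 (bk z y x1 m μ r q) = Λ := by
      unfold Lw
      rw [e1, e2, e5]
      omega
    refine ⟨?_, e1, e6⟩
    rw [hsum, e6, e3]
    have e7 : ∑ x ∈ TT z y, bk z y x1 m μ r q x / 2 = a := by
      rw [← hq3]
      refine Finset.sum_congr rfl fun x hx => ?_
      by_cases hxx : x = x1
      · rw [hxx, e3]; omega
      · rw [e4 x (Finset.mem_erase.2 ⟨hxx, hx⟩)]
        split_ifs <;> omega
    rw [e7]
    omega
  · intro p hp
    rw [Finset.mem_coe, Finset.mem_filter, mem_Mt] at hp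
    obtain ⟨hp1, hp2, hp3⟩ := hp
    have h5 := hsum p
    have h6 : Lw z y x1 p = p z + p y + ∑ x ∈ (TT z y).erase x1, p x % 2 := rfl
    have h7 := Nat.mod_lt (p x1) (show 0 < 2 by norm_num)
    ext x
    change bk z y x1 m _ r _ x = p x
    rw [bk_apply]
    split_ifs with g1 g2 g3 g4
    · rw [g1, hp2]
    · rw [hodd, g2]
      omega
    · change 2 * hf z y p x + r = p x
      rw [g3, hf_apply p x1 hx1]
      omega
    · change 2 * hf z y p x + 1 = p x
      change x ∈ ((TT z y).erase x1).filter (fun x => p x % 2 = 1) at g4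
      rw [Finset.mem_filter] at g4
      rw [hf_apply p x (Finset.mem_of_mem_erase g4.1)]
      have := g4.2
      omega
    · change 2 * hf z y p x + 0 = p x
      change ¬ x ∈ ((TT z y).erase x1).filter (fun x => p x % 2 = 1) at g4
      have g5 : x ∈ TT z y := mem_TT.2 ⟨g2, g1⟩
      rw [Finset.mem_filter, not_and] at g4
      have g6 := g4 (Finset.mem_erase.2 ⟨g3, g5⟩)
      rw [hf_apply p x g5]
      omega
  · intro q hq
    rw [Finset.mem_coe, Finset.mem_product, Finset.mem_filter, Finset.mem_powerset, hMT] at hq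
    obtain ⟨⟨hq1, hq2⟩, hq3, hq4⟩ := hq
    set μ := Λ - m - q.1.card with hμ
    have e4 : ∀ x ∈ (TT z y).erase x1, bk z y x1 m μ r q x =
        2 * q.2 x + (if x ∈ q.1 then 1 else 0) := by
      intro x hx
      rw [Finset.mem_erase, mem_TT] at hx
      rw [bk_apply, if_neg hx.2.2, if_neg hx.2.1, if_neg hx.1]
    have e3 : bk z y x1 m μ r q x1 = 2 * q.2 x1 + r := by
      rw [bk_apply, if_neg h2, if_neg h3, if_pos rfl]
    refine Prod.ext ?_ ?_
    · change ((TT z y).erase x1).filter (fun x => bk z y x1 m μ r q x % 2 = 1) = q.1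
      ext x
      rw [Finset.mem_filter]
      constructor
      · rintro ⟨hx, hx2⟩
        rw [e4 x hx] at hx2
        by_contra hn
        rw [if_neg hn] at hx2
        omega
      · intro hx
        refine ⟨hq1 hx, ?_⟩
        rw [e4 x (hq1 hx), if_pos hx]
        omega
    · change hf z y (bk z y x1 m μ r q) = q.2
      ext x
      by_cases hx : x ∈ TT z y
      · rw [hf_apply _ x hx]
        by_cases hxx : x = x1
        · rw [hxx, e3]; omega
        · rw [e4 x (Finset.mem_erase.2 ⟨hxx, hx⟩)]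
          split_ifs <;> omega
      · rw [hf_apply' _ x hx, hq4 x hx]

theorem card_pow (T : Finset (Fin n)) (m Λ : ℕ) :
    (T.powerset.filter (fun ε => m + ε.card ≤ Λ)).card = qq T.card ((Λ : ℤ) - m) := by
  rw [Finset.card_filter, Finset.sum_powerset_apply_card (fun w => if m + w ≤ Λ then 1 else 0)]
  unfold qq
  refine Finset.sum_congr rfl fun w _ => ?_
  by_cases h : m + w ≤ Λ
  · rw [if_pos h, if_pos (by omega), smul_eq_mul, mul_one]
  · rw [if_neg h, if_neg (by omega), smul_eq_mul, mul_zero]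

end RM

open RM in
theorem pr_RowMass1 : S_RowMass1 := by
  intro n z y x1 s D m i h1 h2 h3 hi his
  classical
  have hrow : row z y x1 (2 * s + D) D m i =
      (Mt n (2 * s + D)).filter (fun p => p z = m ∧ Lw z y x1 p = D + 2 * i) ∪
      (Mt n (2 * s + D)).filter (fun p => p z = m ∧ Lw z y x1 p = D + 2 * i - 1) := by
    ext p
    unfold row lev
    rw [Finset.mem_union, Finset.mem_filter, Finset.mem_filter, Finset.mem_filter]
    constructor
    · rintro ⟨hp, hp1, hp2⟩
      have : Lw z y x1 p = D + 2 * i ∨ Lw z y x1 p = D + 2 * i - 1 := by omega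
      rcases this with h | h
      · exact Or.inl ⟨hp, hp1, h⟩
      · exact Or.inr ⟨hp, hp1, h⟩
    · rintro (⟨hp, hp1, hp2⟩ | ⟨hp, hp1, hp2⟩)
      · exact ⟨hp, hp1, by omega⟩
      · exact ⟨hp, hp1, by omega⟩
  rw [hrow, Finset.card_union_of_disjoint]
  · rw [fib h1 h2 h3 (s - i) (D + 2 * i) 0 (2 * s + D) m (by norm_num) (by omega),
      fib h1 h2 h3 (s - i) (D + 2 * i - 1) 1 (2 * s + D) m le_rfl (by omega),
      card_pow, card_pow, card_T h1 h2 h3, ← add_mul]
    congr 1
    unfold GG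
    have c1 : ((D + 2 * i : ℕ) : ℤ) - m = (D : ℤ) + 2 * i - m := by push_cast; ring
    have c2 : ((D + 2 * i - 1 : ℕ) : ℤ) - m = (D : ℤ) + 2 * i - m - 1 := by
      rw [Nat.cast_sub (by omega)]
      push_cast
      ring
    rw [c1, c2]
  · rw [Finset.disjoint_left]
    intro p hp hp'
    rw [Finset.mem_filter] at hp hp'
    have h4 := hp.2.2
    have h5 := hp'.2.2
    omega

end Pool.Agent.Work.MP_2ad852_ag.GS
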