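import Pool.Agent.Work.MP_2ad852_ag.Bd.B05
import Pool.Agent.Work.MP_2ad852_ag.Bd.B01
import Pool.Agent.Work.MP_2ad852_ag.Bd.B03
import Pool.Agent.Work.MP_2ad852_ag.Bd.B04
import Pool.Agent.Work.MP_2ad852_ag.GS.I_RowMass1

/-!
# Theorems S and W without hypotheses
-/

namespace Pool.Agent.Work.MP_2ad852_ag.GS

open MvPolynomial Finset Pool.Agent.Work.MP_2ad852_ag.GF

theorem core3 : S_Core3 :=
  pr_Core3 (pr_Core2 pr_Tan3 pr_Tan4B (pr_Van2 pr_K2) pr_Ind2 (pr_LAcore (pr_LAright pr_LAleft)))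
    (pr_LeadAdd2 pr_K2) (pr_LeadEx pr_K2) (pr_TwKill pr_TwInv (pr_TwFn pr_TwHom))
    (pr_TwNe pr_TwInv (pr_TwFn pr_TwHom)) pr_TwD (pr_TwSpan pr_TwInv pr_TwHom) pr_TwPDE

theorem combS : S_CombS :=
  pr_CombS pr_StdSum (pr_Dens pr_NMP) pr_BadLe pr_RowMass1 pr_RowMass0 pr_RowSum pr_CapSum
    pr_Ratio pr_GG (pr_Dual (pr_Cut pr_ww1 pr_ww2 pr_ww3 (pr_VV pr_tt1 pr_tt2) (pr_StepC pr_tt3)))

theorem combW : S_CombW :=
  pr_CombW pr_StdSum (pr_Dens pr_NMP) pr_BadLe pr_RowMass1 pr_RowSum pr_GG pr_CapSum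

theorem openL : S_OpenL := pr_OpenL pr_MatL pr_LAleft

theorem openR : S_OpenR := pr_OpenR pr_MatR (pr_LAright pr_LAleft)

/-- theorem S: at least `2 ^ (n - 1)` forms of minimal degree: strong Lefschetz -/
theorem thmS (n r δ : ℕ) (hn : 3 ≤ n) (hδ : 1 ≤ δ) (d : Fin r → ℕ) (hd : ∀ j, δ ≤ d j)
    (hm : 2 ^ (n - 1) ≤ ((Finset.univ : Finset (Fin r)).filter (fun j => d j = δ)).card) :
    Generic (n := n) d (fun f => ∃ l : MvPolynomial (Fin n) ℂ, l.IsHomogeneous 1 ∧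
      ∀ i k : ℕ, MaxRk (Ideal.span (Set.range f)) l i k) :=
  (finS core3 pr_MatL pr_MatR pr_CardCols pr_LASqB pr_ExtR2 pr_ExtC combS pr_MkNumB pr_Ratio
    openL openR pr_Pull pr_Mono pr_Full pr_FinSurj pr_FinInj n r δ hn hδ d hd).2 hm

/-- theorem W: at least `2 ^ (n - 2)` forms of minimal degree: weak Lefschetz -/
theorem thmW (n r δ : ℕ) (hn : 3 ≤ n) (hδ : 1 ≤ δ) (d : Fin r → ℕ) (hd : ∀ j, δ ≤ d j)
    (hm : 2 ^ (n - 2) ≤ ((Finset.univ : Finset (Fin r)).filter (fun j => d j = δ)).card) :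
    Generic (n := n) d (fun f => ∃ l : MvPolynomial (Fin n) ℂ, l.IsHomogeneous 1 ∧
      ∀ i : ℕ, MaxRk (Ideal.span (Set.range f)) l i 1) :=
  (finW core3 pr_MatL pr_MatR pr_CardCols pr_LASqB pr_ExtR2 pr_ExtC combW pr_MkNumB
    openL openR pr_Pull pr_Mono pr_FinSurj pr_FinInj n r δ hn hδ d hd).2 hm

/-- range version, any number of forms: `ratio` conditions with the exact counts `Mk` -/
theorem thmR (n r δ : ℕ) (hn : 3 ≤ n) (z : Fin n) (d : Fin r → ℕ) (hd : ∀ j, δ ≤ d j) :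
    Generic (n := n) d (fun f => ∃ l : MvPolynomial (Fin n) ℂ, l.IsHomogeneous 1 ∧
      ∀ i k : ℕ, i + k < 2 * δ →
        (i + k < δ ∨ 2 ^ (n - 1) * (Mk z k (i + k - δ)).card ≤ (Mk z k (i + k)).card ∨
          (k = 1 ∧ 2 ^ (n - 2) * (Mk z k (i + k - δ)).card ≤ (Mk z k (i + k)).card)) →
        MaxRk (Ideal.span (Set.range f)) l i k) := by
  obtain ⟨y, hyz⟩ := MkNum_other (by omega) z
  obtain ⟨P1, hP1, hP1'⟩ := prodP (σ := Fin r × (Fin n →₀ ℕ))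
      (((Finset.range (2 * δ)) ×ˢ (Finset.range (2 * δ))).filter (fun ke =>
        ke.2 < δ ∨ 2 ^ (n - 1) * (Mk z ke.1 (ke.2 - δ)).card ≤ (Mk z ke.1 ke.2).card ∨
          (ke.1 = 1 ∧ 2 ^ (n - 2) * (Mk z ke.1 (ke.2 - δ)).card ≤ (Mk z ke.1 ke.2).card)))
      (fun ke c => SurjAt z ke.1 ke.2 (sf d c) ∨ InjAt z ke.1 ke.2 d (sf d c)) (by
        rintro ⟨k, e⟩ hke
        rw [Finset.mem_filter, Finset.mem_product, Finset.mem_range, Finset.mem_range] at hke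
        obtain ⟨⟨hk, he⟩, hke⟩ := hke
        refine open_of openL openR z k e d fun h1 h2 => ?_
        rcases hke with hke | hke | ⟨hk1, hke⟩
        · exact noRK_low hd hke h1
        · exact dichS_range core3 pr_MatL pr_MatR pr_CardCols pr_LASqB pr_ExtR2 pr_ExtC combS
            pr_MkNumB hn hyz hd he hke h1 h2
        · simp only at hk1
          subst hk1
          exact dichW_range core3 pr_MatL pr_MatR pr_CardCols pr_LASqB pr_ExtR2 pr_ExtC combW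
            pr_MkNumB hn hyz hd he hke h1 h2)
  refine (generic_of pr_Pull (Q := fun f => ∀ ke ∈ (((Finset.range (2 * δ)) ×ˢ
      (Finset.range (2 * δ))).filter (fun ke =>
        ke.2 < δ ∨ 2 ^ (n - 1) * (Mk z ke.1 (ke.2 - δ)).card ≤ (Mk z ke.1 ke.2).card ∨
          (ke.1 = 1 ∧ 2 ^ (n - 2) * (Mk z ke.1 (ke.2 - δ)).card ≤ (Mk z ke.1 ke.2).card))),
        SurjAt z ke.1 ke.2 f ∨ InjAt z ke.1 ke.2 d f) ⟨P1, hP1, hP1'⟩).mono fun f hf h => ?_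
  refine ⟨X z, isHomogeneous_X _ _, fun i k hik hc => ?_⟩
  refine maxRk_of pr_FinSurj pr_FinInj hf (h (k, i + k) ?_)
  rw [Finset.mem_filter, Finset.mem_product, Finset.mem_range, Finset.mem_range]
  exact ⟨⟨by simp only; omega, hik⟩, hc⟩

end Pool.Agent.Work.MP_2ad852_ag.GS
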