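import Pool.Agent.Work.MP_2ad852_ag.Bd.B05

/-!
# The number of monomials of degree `t` with first exponent less than `k`
-/

namespace Pool.Agent.Work.MP_2ad852_ag.GS

open MvPolynomial Finset Pool.Agent.Work.MP_2ad852_ag.GF

theorem card_fiber {n : ℕ} (hn : 2 ≤ n) (z : Fin n) {k t j : ℕ} (hj : j < k) (hjt : j ≤ t) :
    ((Mk z k t).filter (fun p => p z = j)).card = (t - j + n - 2).choose (n - 2) := by
  rw [← card_Mk_one hn z (t - j)]
  refine Finset.card_bij (fun p _ => p - Finsupp.single z j) ?_ ?_ ?_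
  · intro p hp
    rw [Finset.mem_filter, mem_Mk] at hp
    obtain ⟨⟨h1, _⟩, h3⟩ := hp
    have h4 : p - Finsupp.single z j + Finsupp.single z j = p :=
      tsub_add_cancel_of_le (Finsupp.single_le_iff.2 h3.ge)
    have h5 := MkNum_sum (p - Finsupp.single z j) z j
    rw [h4, h1] at h5
    rw [mem_Mk]
    refine ⟨by omega, ?_⟩
    rw [Finsupp.tsub_apply, Finsupp.single_eq_same, h3]
    omega
  · intro p hp q hq h
    rw [Finset.mem_filter, mem_Mk] at hp hq
    have h4 : p - Finsupp.single z j + Finsupp.single z j = p :=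
      tsub_add_cancel_of_le (Finsupp.single_le_iff.2 hp.2.ge)
    have h5 : q - Finsupp.single z j + Finsupp.single z j = q :=
      tsub_add_cancel_of_le (Finsupp.single_le_iff.2 hq.2.ge)
    rw [← h4, ← h5]
    exact congrArg (· + Finsupp.single z j) h
  · intro q hq
    rw [mem_Mk] at hq
    refine ⟨q + Finsupp.single z j, ?_, ?_⟩
    · rw [Finset.mem_filter, mem_Mk]
      refine ⟨⟨?_, ?_⟩, ?_⟩
      · rw [MkNum_sum, hq.1]
        omega
      · rw [Finsupp.add_apply, Finsupp.single_eq_same]
        omega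
      · rw [Finsupp.add_apply, Finsupp.single_eq_same]
        omega
    · exact add_tsub_cancel_right q _

theorem card_Mk_eq {n : ℕ} (hn : 2 ≤ n) (z : Fin n) (k t : ℕ) :
    (Mk z k t).card = ∑ j ∈ Finset.range (min k (t + 1)), (t - j + n - 2).choose (n - 2) := by
  rw [Finset.card_eq_sum_card_fiberwise (f := fun p => p z) (t := Finset.range (min k (t + 1)))]
  · refine Finset.sum_congr rfl fun j hj => ?_
    rw [Finset.mem_range, lt_min_iff] at hj
    exact card_fiber hn z hj.1 (by omega)
  · intro p hp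
    rw [Finset.mem_coe, mem_Mk] at hp
    rw [Finset.mem_coe, Finset.mem_range, lt_min_iff]
    have h2 : p z ≤ ∑ i, p i :=
      Finset.single_le_sum (f := fun i => p i) (fun i _ => Nat.zero_le _) (Finset.mem_univ z)
    refine ⟨hp.2, ?_⟩
    show p z < t + 1
    omega

end Pool.Agent.Work.MP_2ad852_ag.GS
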