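import Pool.Agent.Work.MP_2ad852_ag.GF.Basics

/-!
# Block GS: strong Lefschetz property for at least `2 ^ (n - 1)` forms of minimal degree
Definitions.

`z` is the variable of the powers `z ^ k`, `y ≠ z` is a second distinguished variable (made generic
by the twist), all other variables are called `x`.
-/

namespace Pool.Agent.Work.MP_2ad852_ag.GS

open MvPolynomial Finset Pool.Agent.Work.MP_2ad852_ag.GF

/-- key of the monomial order: a smaller `z`-exponent is bigger, then a smaller `y`-exponent is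
bigger, then any order -/
noncomputable def key2 {n : ℕ} (z y : Fin n) (p : Fin n →₀ ℕ) :
    ℕ ×ₗ (MonomialOrder.degLex (σ := Fin n)).syn :=
  toLex (∑ i, (p.erase z) i, MonomialOrder.degLex.toSyn ((p.erase z).erase y))

/-- `q` is the leading exponent of a homogeneous element of the annihilator of `F` -/
def IsLead2 {n : ℕ} {R : Type} [CommRing R] (z y : Fin n) (k e : ℕ) (F : (Fin n →₀ ℕ) → R)
    (q : Fin n →₀ ℕ) : Prop :=
  ∃ u : MvPolynomial (Fin n) R, u.IsHomogeneous (∑ i, q i) ∧ IsAnn z k e F u ∧ coeff q u ≠ 0 ∧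
    ∀ p, coeff p u ≠ 0 → key2 z y p ≤ key2 z y q

/-- `p` has no pair `q1, q2 ∈ L` with the same `z`-exponent as `p` and `q1 + q2 ≤ p + (p z) e_z` -/
def NoPair {n : ℕ} (z : Fin n) (L : (Fin n →₀ ℕ) → Prop) (p : Fin n →₀ ℕ) : Prop :=
  ∀ q1 q2, L q1 → L q2 → q1 z = p z → q2 z = p z → ¬ q1 + q2 ≤ p + Finsupp.single z (p z)

open Classical in
/-- bad monomials of degree `e` -/
noncomputable def Bad2 {n : ℕ} (z : Fin n) (k e : ℕ) (L : (Fin n →₀ ℕ) → Prop) :
    Finset (Fin n →₀ ℕ) :=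
  (Mk z k e).filter (fun p => NoPair z L p)

/-- `L` is closed under addition and under exchanging `y` for another variable `x ≠ z` -/
structure Closed {n : ℕ} (z y : Fin n) (L : (Fin n →₀ ℕ) → Prop) : Prop where
  add : ∀ q r, L q → L (q + r)
  ex : ∀ q x, L q → x ≠ y → x ≠ z → 1 ≤ q y →
    L (q - Finsupp.single y 1 + Finsupp.single x 1)

/-! ## The twist -/

/-- coefficients and the parameters of the twist -/
abbrev R2 (ι : Type) (n : ℕ) : Type := MvPolynomial ((ι × (Fin n →₀ ℕ)) ⊕ Fin n) ℂ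

/-- the linear substitution `y ↦ y + ε ∑ a_x x` over all `x ≠ y, z` -/
noncomputable def tws {ι : Type} {n : ℕ} (z y : Fin n) (ε : ℂ) :
    MvPolynomial (Fin n) (R2 ι n) →ₐ[R2 ι n] MvPolynomial (Fin n) (R2 ι n) :=
  aeval (fun i => if i = y then
    X y + ∑ x ∈ Finset.univ.filter (fun x => x ≠ y ∧ x ≠ z), C (C ε * X (Sum.inr x)) * X x
    else X i)

/-- the twist -/
noncomputable def tw {ι : Type} {n : ℕ} (z y : Fin n) :
    MvPolynomial (Fin n) (R2 ι n) →ₐ[R2 ι n] MvPolynomial (Fin n) (R2 ι n) := tws z y 1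

/-- its inverse -/
noncomputable def twi {ι : Type} {n : ℕ} (z y : Fin n) :
    MvPolynomial (Fin n) (R2 ι n) →ₐ[R2 ι n] MvPolynomial (Fin n) (R2 ι n) := tws z y (-1)

/-- the inclusion of the ring of coefficients -/
noncomputable def inj {ι : Type} {n : ℕ} : Rg ι n →ₐ[ℂ] R2 ι n := rename Sum.inl

/-- the twisted functional -/
noncomputable def twF {ι : Type} {n : ℕ} (z y : Fin n) (k e : ℕ) (F : (Fin n →₀ ℕ) → Rg ι n) :
    (Fin n →₀ ℕ) → R2 ι n :=
  fun p => fn z k e (fun p' => inj (F p')) (tw z y (monomial p 1))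

/-- the twisted generic forms -/
noncomputable def twf {ι : Type} {n : ℕ} (z y : Fin n) (d : ι → ℕ) (l : ι) :
    MvPolynomial (Fin n) (R2 ι n) :=
  twi z y (MvPolynomial.map (inj (ι := ι) (n := n)).toRingHom (gf d l))

/-! ## Combinatorics -/

/-- the other variables -/
def TT {n : ℕ} (z y : Fin n) : Finset (Fin n) := (Finset.univ.erase z).erase y

/-- monomials of degree `a` in the other variables -/
def MT {n : ℕ} (z y : Fin n) (a : ℕ) : Finset (Fin n →₀ ℕ) := Finset.finsuppAntidiag (TT z y) a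

open Classical in
/-- the cell `(j, i)`: monomials `c` of degree `s - i` in the other variables with
`z ^ j * y ^ (i - j) * c` not in `L` -/
noncomputable def cell {n : ℕ} (z y : Fin n) (s : ℕ) (L : (Fin n →₀ ℕ) → Prop) (j i : ℕ) :
    Finset (Fin n →₀ ℕ) :=
  (MT z y (s - i)).filter
    (fun c => ¬ L (Finsupp.single z j + Finsupp.single y (i - j) + c))

/-- parity weight of `p` on the other variables except `x1`, plus the `y`- and `z`-exponents -/
def Lw {n : ℕ} (z y x1 : Fin n) (p : Fin n →₀ ℕ) : ℕ :=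
  p z + p y + ∑ x ∈ (TT z y).erase x1, p x % 2

/-- level of a monomial of degree `2 * s + D` -/
def lev {n : ℕ} (z y x1 : Fin n) (D : ℕ) (p : Fin n →₀ ℕ) : ℕ := (Lw z y x1 p - D + 1) / 2

/-- monomials of degree `e` in row `m` and level `i` -/
def row {n : ℕ} (z y x1 : Fin n) (e D m i : ℕ) : Finset (Fin n →₀ ℕ) :=
  (Mt n e).filter (fun p => p z = m ∧ lev z y x1 D p = i)

/-- number of subsets of size at most `x` of a set with `N` elements (`0` for negative `x`) -/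
def qq (N : ℕ) (x : ℤ) : ℕ := ∑ w ∈ Finset.range (N + 1), if (w : ℤ) ≤ x then N.choose w else 0

/-- `qq x + qq (x - 1)` -/
def GG (N : ℕ) (x : ℤ) : ℕ := qq N x + qq N (x - 1)

/-! ## The cut inequality -/

structure CutData (s D k : ℕ) (ρ κ : ℝ) (W : ℕ → ℝ) (G : ℤ → ℝ) (α : ℕ → ℕ → ℝ) : Prop where
  hk : 1 ≤ k
  hρ : 2 * κ ≤ ρ
  hW : ∀ i, 0 ≤ W i
  G_mono : ∀ x y, x ≤ y → G x ≤ G y
  G_le : ∀ x, G x ≤ κ
  G_neg : ∀ x, x < 0 → G x = 0
  hα : ∀ m i : ℕ, 1 ≤ i → α m i = G ((D : ℤ) + 2 * i - m)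
  hα0 : ∀ m : ℕ, G ((D : ℤ) - m) ≤ α m 0
  hα1 : ∀ m : ℕ, D < m → α m 0 = 0
  hP : ∀ β < k, ∑ i ∈ Finset.range (s + 1), W i * ∑ m ∈ Finset.range (β + 1), α m i ≤
    ρ * ∑ i ∈ Finset.range (s + 1), W i * ((min i β : ℕ) + 1)

/-- `m'` is in the window of row `m` -/
def Win (s D k m m' : ℕ) : Prop := (m - D + 1) / 2 ≤ m' ∧ m' ≤ m ∧ m' < k ∧ m' ≤ s

/-- a hole at level `i` -/
def Hole (s k : ℕ) (g : ℕ → ℕ) (i m' : ℕ) : Prop := m' < k ∧ m' ≤ s ∧ m' < g m' ∧ i < g m'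

noncomputable def tt (ρ : ℝ) (α : ℕ → ℕ → ℝ) (i β : ℕ) : ℝ :=
  ∑ m ∈ Finset.range (β + 1), α m i - ρ * ((min i β : ℕ) + 1)

open Classical in
/-- the normalised excess of level `i` -/
noncomputable def ww (s D k : ℕ) (ρ : ℝ) (α : ℕ → ℕ → ℝ) (g : ℕ → ℕ) (i : ℕ) : ℝ :=
  ∑ m ∈ (Finset.range k).filter (fun m => ∀ m', Win s D k m m' → ¬ Hole s k g i m'), α m i -
    ρ * ((Finset.range (min i (min (k - 1) s) + 1)).filter (fun m' => ¬ Hole s k g i m')).card

/-- level `i` is full -/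
def Full (s k : ℕ) (g : ℕ → ℕ) (i : ℕ) : Prop := ∀ m', m' ≤ i → ¬ Hole s k g i m'

/-- sum of `t i β` over the levels `≥ i0` -/
noncomputable def VV (s : ℕ) (ρ : ℝ) (W : ℕ → ℝ) (α : ℕ → ℕ → ℝ) (i0 β : ℕ) : ℝ :=
  ∑ i ∈ Finset.Ico i0 (s + 1), W i * tt ρ α i β

end Pool.Agent.Work.MP_2ad852_ag.GS
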